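import Pool.Agent.Helper36.CV.StmtsD

set_option autoImplicit false

namespace Pool.Agent.Helper36.CV

noncomputable section

lemma d4_s5 : (2236 : ℝ) / 1000 < Real.sqrt 5 ∧ Real.sqrt 5 < 22361 / 10000 := by
  constructor
  · rw [Real.lt_sqrt (by norm_num)]; norm_num
  · rw [Real.sqrt_lt' (by norm_num)]; norm_num

lemma d4_gam : (618 : ℝ) / 1000 ≤ gam ∧ gam < 61805 / 100000 := by
  have := d4_s5
  unfold gam
  constructor <;> linarith [this.1, this.2]

lemma d4_phi : (1618 : ℝ) / 1000 ≤ phi ∧ phi < 161805 / 100000 := by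
  have := d4_s5
  unfold phi
  constructor <;> linarith [this.1, this.2]

lemma d4_gp : gam * phi = 1 := by
  unfold gam phi
  have : Real.sqrt 5 * Real.sqrt 5 = 5 := Real.mul_self_sqrt (by norm_num)
  nlinarith

lemma d4_phi1 : phi = 1 + gam := by
  unfold gam phi; ring

lemma d4_sin (l E : ℝ) (a b : ℤ) (i : ℕ) (h : |rr l a b i E| ≤ 1 / 2) :
    2 * |rr l a b i E| ≤ |Real.sin (Th l i E)| := by
  have hpi := Real.pi_pos
  have e : Th l i E = rr l a b i E * Real.pi + (pp a b i : ℤ) * Real.pi := by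
    unfold rr; field_simp; ring
  rw [e, Real.sin_add_int_mul_pi, abs_mul]
  have h1 : |((-1 : ℝ) ^ (pp a b i : ℤ))| = 1 := by
    rw [abs_zpow]; simp
  rw [h1, one_mul]
  set r := rr l a b i E
  rcases abs_cases r with ⟨hr, h0⟩ | ⟨hr, h0⟩
  · rw [hr] at h ⊢
    have := Real.mul_le_sin (x := r * Real.pi) (by positivity) (by nlinarith)
    have e2 : 2 / Real.pi * (r * Real.pi) = 2 * r := by field_simp
    rw [e2] at this
    exact this.trans (le_abs_self _)
  · rw [hr] at h ⊢
    have := Real.mul_le_sin (x := -r * Real.pi) (by nlinarith) (by nlinarith)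
    have e2 : 2 / Real.pi * (-r * Real.pi) = 2 * -r := by field_simp
    rw [e2] at this
    have e3 : Real.sin (r * Real.pi) = - Real.sin (-r * Real.pi) := by
      rw [← Real.sin_neg]; congr 1; ring
    rw [e3, abs_neg]
    exact this.trans (le_abs_self _)

lemma d4_step (g t a β D r0 r1 r2 S0 S1 S2 : ℝ) (ht : 0 < t) (hg : 3 * t ≤ gam * g)
    (hg2 : g ≤ 17 / 100) (ha : |a| ≤ 6 / 10 * t) (hβ1 : 222 / 100 * g ≤ |β|) (hβ2 : |β| ≤ 225 / 100 * g)
    (hD : |D| ≤ 101 / 100 * t) (e0 : Real.sqrt 5 * r0 = a - β) (e1 : Real.sqrt 5 * r1 = phi * a + gam * β)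
    (e2 : r2 = r1 + r0 + D / Real.pi) (s0 : |r0| ≤ 1 / 2 → 2 * |r0| ≤ S0)
    (s1 : |r1| ≤ 1 / 2 → 2 * |r1| ≤ S1) (s2 : |r2| ≤ 1 / 2 → 2 * |r2| ≤ S2)
    (h2 : |D| * (S0 - 51 / 100 * t) * (8 * S1 * S2) ≤ 101 / 100 * t ^ 4) :
    |D| ≤ t ^ 4 / g ^ 3 := by
  obtain ⟨v1, v2⟩ := d4_s5
  obtain ⟨g1, g2⟩ := d4_gam
  obtain ⟨p1, p2⟩ := d4_phi
  have hpi := Real.pi_gt_d2
  have hgpos : 0 < g := by
    by_contra h
    push Not at h
    nlinarith
  have htg : t ≤ 20602 / 100000 * g := by nlinarith
  have ha0 := abs_nonneg a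
  have hb0 := abs_nonneg β
  have hd0 := abs_nonneg D
  have hDpi : |D / Real.pi| ≤ 3217 / 10000 * t := by
    rw [abs_div, abs_of_pos Real.pi_pos, div_le_iff₀ Real.pi_pos]
    nlinarith
  have s5p : (0 : ℝ) < Real.sqrt 5 := by linarith
  have A0 : Real.sqrt 5 * |r0| = |a - β| := by
    rw [← e0, abs_mul, abs_of_pos s5p]
  have A1 : Real.sqrt 5 * |r1| = |phi * a + gam * β| := by
    rw [← e1, abs_mul, abs_of_pos s5p]
  have E2 : Real.sqrt 5 * (r1 + r0) = (phi + 1) * a - (1 - gam) * β := by
    rw [mul_add, e0, e1]; ring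
  have A2 : Real.sqrt 5 * |r1 + r0| = |(phi + 1) * a - (1 - gam) * β| := by
    rw [← E2, abs_mul, abs_of_pos s5p]
  have B0 : |β| - |a| ≤ |a - β| := by
    have := abs_sub_abs_le_abs_sub β a
    rw [abs_sub_comm] at this; exact this
  have B0' : |a - β| ≤ |a| + |β| := abs_sub a β
  have B1 : gam * |β| - phi * |a| ≤ |phi * a + gam * β| := by
    have h := abs_sub_abs_le_abs_sub (gam * β) (-(phi * a))
    rw [abs_neg, abs_mul, abs_mul, abs_of_pos (show 0 < gam by linarith),
      abs_of_pos (show 0 < phi by linarith)] at h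
    have e : gam * β - -(phi * a) = phi * a + gam * β := by ring
    rwa [e] at h
  have B1' : |phi * a + gam * β| ≤ phi * |a| + gam * |β| := by
    have h := abs_add_le (phi * a) (gam * β)
    rwa [abs_mul, abs_mul, abs_of_pos (show 0 < gam by linarith),
      abs_of_pos (show 0 < phi by linarith)] at h
  have B2 : (1 - gam) * |β| - (phi + 1) * |a| ≤ |(phi + 1) * a - (1 - gam) * β| := by
    have h := abs_sub_abs_le_abs_sub ((1 - gam) * β) ((phi + 1) * a)
    rw [abs_mul, abs_mul, abs_of_pos (show 0 < 1 - gam by linarith),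
      abs_of_pos (show 0 < phi + 1 by linarith), abs_sub_comm] at h
    exact h
  have C0 : 9375 / 10000 * g ≤ |r0| := by
    have : Real.sqrt 5 * (9375 / 10000 * g) ≤ Real.sqrt 5 * |r0| := by
      rw [A0]; nlinarith
    exact le_of_mul_le_mul_left this (by linarith)
  have C0' : |r0| ≤ 108 / 100 * g := by
    have : Real.sqrt 5 * |r0| ≤ Real.sqrt 5 * (108 / 100 * g) := by
      rw [A0]; nlinarith
    exact le_of_mul_le_mul_left this (by linarith)
  have C1 : 52 / 100 * g ≤ |r1| := by
    have : Real.sqrt 5 * (52 / 100 * g) ≤ Real.sqrt 5 * |r1| := by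
      rw [A1]
      have k1 : 618 / 1000 * (222 / 100 * g) ≤ gam * |β| := by
        apply mul_le_mul g1 hβ1 (by positivity) (by linarith)
      have k2 : phi * |a| ≤ 161805 / 100000 * (6 / 10 * t) := by
        apply mul_le_mul p2.le ha ha0 (by norm_num)
      nlinarith
    exact le_of_mul_le_mul_left this (by linarith)
  have C1' : |r1| ≤ 80 / 100 * g := by
    have : Real.sqrt 5 * |r1| ≤ Real.sqrt 5 * (80 / 100 * g) := by
      rw [A1]
      have k1 : gam * |β| ≤ 61805 / 100000 * (225 / 100 * g) := by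
        apply mul_le_mul g2.le hβ2 hb0 (by norm_num)
      have k2 : phi * |a| ≤ 161805 / 100000 * (6 / 10 * t) := by
        apply mul_le_mul p2.le ha ha0 (by norm_num)
      nlinarith
    exact le_of_mul_le_mul_left this (by linarith)
  have C2 : 1018 / 10000 * g + 3217 / 10000 * t + 66 / 1000 * g ≤ |r1 + r0| := by
    have : Real.sqrt 5 * (1018 / 10000 * g + 3217 / 10000 * t + 66 / 1000 * g) ≤ Real.sqrt 5 * |r1 + r0| := by
      rw [A2]
      have k1 : 38195 / 100000 * (222 / 100 * g) ≤ (1 - gam) * |β| := by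
        apply mul_le_mul (by linarith) hβ1 (by positivity) (by linarith)
      have k2 : (phi + 1) * |a| ≤ 261805 / 100000 * (6 / 10 * t) := by
        apply mul_le_mul (by linarith) ha ha0 (by norm_num)
      have k3 : Real.sqrt 5 * (1018 / 10000 * g + 3217 / 10000 * t + 66 / 1000 * g) ≤
          22361 / 10000 * (1018 / 10000 * g + 3217 / 10000 * t + 66 / 1000 * g) :=
        mul_le_mul_of_nonneg_right v2.le (by positivity)
      nlinarith
    exact le_of_mul_le_mul_left this (by linarith)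
  have R2 : 1678 / 10000 * g ≤ |r2| := by
    rw [e2]
    have h := abs_sub_abs_le_abs_sub (r1 + r0) (-(D / Real.pi))
    rw [abs_neg, sub_neg_eq_add] at h
    linarith
  have R2' : |r2| ≤ 1 / 2 := by
    rw [e2]
    have h := abs_add_le (r1 + r0) (D / Real.pi)
    have h' := abs_add_le r1 r0
    nlinarith
  have T0 := s0 (by nlinarith)
  have T1 := s1 (by nlinarith)
  have T2 := s2 R2'
  have U0 : 176 / 100 * g ≤ S0 - 51 / 100 * t := by nlinarith
  have U1 : 104 / 100 * g ≤ S1 := by nlinarith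
  have U2 : 335 / 1000 * g ≤ S2 := by nlinarith
  have P : (176 / 100 * g) * (8 * (104 / 100 * g) * (335 / 1000 * g)) ≤
      (S0 - 51 / 100 * t) * (8 * S1 * S2) := by
    apply mul_le_mul U0 _ (by positivity) (by nlinarith)
    apply mul_le_mul _ U2 (by positivity) (by nlinarith)
    linarith
  have Q : |D| * (176 / 100 * g * (8 * (104 / 100 * g) * (335 / 1000 * g))) ≤ 101 / 100 * t ^ 4 := by
    refine le_trans (mul_le_mul_of_nonneg_left P hd0) ?_
    rw [← mul_assoc]; exact h2
  rw [le_div_iff₀ (by positivity)]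
  have hg3 : 0 < g ^ 3 := by positivity
  have e : |D| * (176 / 100 * g * (8 * (104 / 100 * g) * (335 / 1000 * g))) =
      (176 / 100 * 8 * (104 / 100) * (335 / 1000)) * (|D| * g ^ 3) := by ring
  rw [e] at Q
  have : 0 ≤ |D| * g ^ 3 := by positivity
  have ht4 : 0 < t ^ 4 := by positivity
  nlinarith

theorem st_D4 (h1 : ST_D1) (h2 : ST_D2) (h3 : ST_D3) (h6 : ST_T6) : ST_D4 := by
  obtain ⟨l0, hl0, h3⟩ := h3
  refine ⟨min l0 (1 / 10000), by positivity, ?_⟩
  intro l E a b n hl hll hb hs1 hs2 hA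
  have hl1 : |l| ≤ l0 := hll.trans (min_le_left _ _)
  have hl2 : |l| ≤ 1 / 10000 := hll.trans (min_le_right _ _)
  have hl3 : |l| ≤ 1 / 100 := by linarith
  obtain ⟨v1, v2⟩ := d4_s5
  obtain ⟨g1, g2⟩ := d4_gam
  obtain ⟨p1, p2⟩ := d4_phi
  have gp := d4_gp
  have gpos : 0 < gam := by linarith
  have ppos : 0 < phi := by linarith
  have hpi := Real.pi_gt_d2
  set t := Real.sqrt |l| with htdef
  set s := Real.sqrt t with hsdef
  have ht : 0 < t := Real.sqrt_pos.mpr hl
  have hs : 0 < s := Real.sqrt_pos.mpr ht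
  have htt : t ^ 2 = |l| := Real.sq_sqrt hl.le
  have hss : s ^ 2 = t := Real.sq_sqrt ht.le
  have ht1 : t ≤ 1 / 100 := by
    by_contra h
    push Not at h
    nlinarith
  have hs10 : s ≤ 1 / 10 := by
    by_contra h
    push Not at h
    nlinarith
  have hb1 : (1 : ℝ) ≤ |(b : ℝ)| := by
    have : (1 : ℤ) ≤ |b| := Int.one_le_abs hb
    exact_mod_cast this
  -- G
  set G : ℕ → ℝ := fun i => |(b : ℝ)| * gam ^ i with hG
  have Gpos : ∀ i, 0 < G i := fun i => by
    simp only [hG]; positivity
  have Gs : ∀ i, G (i + 1) = gam * G i := fun i => by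
    simp only [hG]; ring
  have Gn1 : s ≤ G n := hs1
  have Gn2 : G n < phi * s := hs2
  have Gk : ∀ k, G (n + k) = gam ^ k * G n := fun k => by
    simp only [hG]; ring
  have Gle : ∀ k, G (n + k) ≤ G n := fun k => by
    rw [Gk]
    have : gam ^ k ≤ 1 := pow_le_one₀ gpos.le (by linarith)
    nlinarith [Gpos n]
  have Gn3 : G n ≤ 17 / 100 := by nlinarith
  have hl4 : l ^ 2 = t ^ 4 := by
    have : t ^ 4 = (t ^ 2) ^ 2 := by ring
    rw [this, htt, sq_abs]
  have hgam1 : gam ≤ 1 := by linarith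
  obtain hT6 := fun i => (h6 l hl hl3 i).2.2 E
  -- b at a level
  have absb : ∀ i, |(-gam) ^ i * (Real.sqrt 5 * (b : ℝ))| = Real.sqrt 5 * G i := fun i => by
    simp only [hG]
    rw [abs_mul, abs_mul, abs_pow, abs_neg, abs_of_pos gpos,
      abs_of_pos (show (0 : ℝ) < Real.sqrt 5 by linarith)]
    ring
  have stepD : ∀ k, 3 * t ≤ gam * G (n + k) →
      |bb l a b (n + k) E - (-gam) ^ (n + k) * (Real.sqrt 5 * b)| ≤
        G (n + k) / 100 + t ^ 4 / G (n + k) ^ 3 → |D l (n + k) E| ≤ t ^ 4 / G (n + k) ^ 3 := by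
    intro k hk hc
    have hg0 := Gpos (n + k)
    have htg : t ≤ 207 / 1000 * G (n + k) := by nlinarith
    have hq : t ^ 4 / G (n + k) ^ 3 ≤ 19 / 10000 * G (n + k) := by
      rw [div_le_iff₀ (by positivity)]
      have : t ^ 4 ≤ (207 / 1000 * G (n + k)) ^ 4 := by
        apply pow_le_pow_left₀ ht.le htg
      refine this.trans ?_
      have e : (207 / 1000 * G (n + k)) ^ 4 = (207 / 1000) ^ 4 * (G (n + k)) ^ 4 := by ring
      have e' : 19 / 10000 * G (n + k) * G (n + k) ^ 3 = 19 / 10000 * (G (n + k)) ^ 4 := by ring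
      rw [e, e']
      apply mul_le_mul_of_nonneg_right (by norm_num) (by positivity)
    have hβ : |(-gam) ^ (n + k) * (Real.sqrt 5 * (b : ℝ))| = Real.sqrt 5 * G (n + k) := absb _
    have t1 := abs_sub_abs_le_abs_sub ((-gam) ^ (n + k) * (Real.sqrt 5 * (b : ℝ))) (bb l a b (n + k) E)
    rw [abs_sub_comm] at t1
    have t2 := abs_sub_abs_le_abs_sub (bb l a b (n + k) E) ((-gam) ^ (n + k) * (Real.sqrt 5 * (b : ℝ)))
    rw [hβ] at t1 t2
    have d1 := h1 l E a b (n + k)
    have h0 := h2 l hl hl3 (n + k) E (n + k) (n + k + 1) (n + k + 2) rfl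
    rw [← htdef, hl4] at h0
    have hDb := (hT6 (n + k)).2.1
    rw [← htdef] at hDb
    refine d4_step (G (n + k)) t (aa l a b (n + k) E) (bb l a b (n + k) E) (D l (n + k) E)
      (rr l a b (n + k) E) (rr l a b (n + k + 1) E) (rr l a b (n + k + 2) E)
      |Real.sin (Th l (n + k) E)| |Real.sin (Th l (n + k + 1) E)| |Real.sin (Th l (n + k + 2) E)|
      ht hk (by linarith [Gle k]) (hA _ (by omega)) (by nlinarith) (by nlinarith) hDb
      d1.2.2.1 d1.2.2.2.1 ?_ (d4_sin l E a b _) (d4_sin l E a b _) (d4_sin l E a b _) h0.2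
    unfold rr
    rw [show Th l (n + k + 2) E = Th l (n + k + 1) E + Th l (n + k) E + D l (n + k) E from rfl,
      show pp a b (n + k + 2) = pp a b (n + k + 1) + pp a b (n + k) from rfl]
    push_cast
    ring
  -- claim on b
  have key : ∀ k, 3 * t ≤ G (n + k) →
      |bb l a b (n + k) E - (-gam) ^ (n + k) * (Real.sqrt 5 * b)| ≤
        G (n + k) / 100 + t ^ 4 / G (n + k) ^ 3 := by
    intro k
    induction k with
    | zero =>
      intro _
      rw [add_zero]
      have d1 := (h1 l E a b n).2.2.2.2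
      have e : bb l a b n E - (-gam) ^ n * (Real.sqrt 5 * b) =
          (-gam) ^ n * (gam ^ n * aa l a b n E - WS l n E) := by rw [d1]; ring
      rw [e, abs_mul, abs_pow, abs_neg, abs_of_pos gpos]
      have w := (h3 l E a b n hl hl1 hb hs1 (hA n le_rfl) n le_rfl).1
      have hA0 := hA n le_rfl
      have hgn : gam ^ n ≤ 1 := pow_le_one₀ gpos.le hgam1
      have hgn0 : 0 < gam ^ n := by positivity
      have u1 : |gam ^ n * aa l a b n E - WS l n E| ≤ gam ^ n * (6 / 10 * t) +
          9 * Real.sqrt 5 * |(b : ℝ)| * |l| := by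
        refine (abs_sub _ _).trans ?_
        rw [abs_mul, abs_of_pos hgn0]
        have := mul_le_mul_of_nonneg_left hA0 hgn0.le
        linarith
      have u2 : gam ^ n * |gam ^ n * aa l a b n E - WS l n E| ≤ gam ^ n * (gam ^ n * (6 / 10 * t) +
          9 * Real.sqrt 5 * |(b : ℝ)| * |l|) := mul_le_mul_of_nonneg_left u1 hgn0.le
      have u3 : gam ^ n * (gam ^ n * (6 / 10 * t)) ≤ G n * (6 / 1000) := by
        have a1 : gam ^ n ≤ G n := by
          simp only [hG]
          nlinarith
        have a2 : gam ^ n * (6 / 10 * t) ≤ 1 * (6 / 1000) := by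
          apply mul_le_mul hgn (by linarith) (by positivity) (by norm_num)
        calc gam ^ n * (gam ^ n * (6 / 10 * t)) ≤ G n * (1 * (6 / 1000)) := by
              apply mul_le_mul a1 a2 (by positivity) (Gpos n).le
          _ = _ := by ring
      have u4 : gam ^ n * (9 * Real.sqrt 5 * |(b : ℝ)| * |l|) ≤ G n * (4 / 1000) := by
        have e2 : gam ^ n * (9 * Real.sqrt 5 * |(b : ℝ)| * |l|) = G n * (9 * Real.sqrt 5 * |l|) := by
          simp only [hG]; ring
        rw [e2]
        apply mul_le_mul_of_nonneg_left _ (Gpos n).le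
        nlinarith
      have u5 : 0 < t ^ 4 / G n ^ 3 := div_pos (by positivity) (pow_pos (Gpos n) 3)
      rw [mul_add] at u2
      linarith
    | succ k ih =>
      intro hk
      have hgk : 3 * t ≤ gam * G (n + k) := by
        have := Gs (n + k)
        rw [← this]; exact hk
      have hk' : 3 * t ≤ G (n + k) := by nlinarith [Gpos (n + k)]
      have i1 := ih hk'
      have i2 := stepD k hgk i1
      have d1 := (h1 l E a b (n + k)).2.1
      have e : bb l a b (n + (k + 1)) E - (-gam) ^ (n + (k + 1)) * (Real.sqrt 5 * b) =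
          -gam * (bb l a b (n + k) E - (-gam) ^ (n + k) * (Real.sqrt 5 * b)) + D l (n + k) E / Real.pi := by
        rw [← add_assoc, d1, pow_succ]; ring
      rw [e]
      refine (abs_add_le _ _).trans ?_
      rw [abs_mul, abs_neg, abs_of_pos gpos, abs_div, abs_of_pos Real.pi_pos]
      rw [← add_assoc, Gs (n + k)]
      have hg0 := Gpos (n + k)
      set g := G (n + k)
      have q : t ^ 4 / (gam * g) ^ 3 = phi ^ 3 * (t ^ 4 / g ^ 3) := by
        have : phi = gam⁻¹ := by
          rw [eq_comm, inv_eq_iff_eq_inv, eq_comm]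
          exact (eq_inv_of_mul_eq_one_left gp).symm
        rw [this]
        field_simp
      rw [q]
      have hx : 0 < t ^ 4 / g ^ 3 := by positivity
      set x := t ^ 4 / g ^ 3
      have r1 : gam * |bb l a b (n + k) E - (-gam) ^ (n + k) * (Real.sqrt 5 * b)| ≤ gam * (g / 100 + x) :=
        mul_le_mul_of_nonneg_left i1 gpos.le
      have r2 : |D l (n + k) E| / Real.pi ≤ x := by
        rw [div_le_iff₀ Real.pi_pos]
        nlinarith
      have r3 : 4 ≤ phi ^ 3 := by
        have : (1618 / 1000 : ℝ) ^ 3 ≤ phi ^ 3 := pow_le_pow_left₀ (by norm_num) p1 3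
        nlinarith
      nlinarith
  have keyD : ∀ k, 3 * t ≤ gam * G (n + k) → |D l (n + k) E| ≤ t ^ 4 / G (n + k) ^ 3 := by
    intro k hk
    apply stepD k hk
    apply key
    nlinarith [Gpos (n + k)]
  -- claim on a
  have keyA : ∀ k, 3 * t ≤ G (n + k) →
      |aa l a b n E| ≤ gam ^ k * |aa l a b (n + k) E| + 1 / 8 * (t ^ 4 / (G n * G (n + k) ^ 2)) := by
    intro k
    induction k with
    | zero =>
      intro _
      have : 0 < t ^ 4 / (G n * G (n + 0) ^ 2) := div_pos (by positivity) (mul_pos (Gpos n) (pow_pos (Gpos _) 2))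
      rw [pow_zero, one_mul, add_zero] at *
      linarith
    | succ k ih =>
      intro hk
      have hgk : 3 * t ≤ gam * G (n + k) := by
        have := Gs (n + k)
        rw [← this]; exact hk
      have hk' : 3 * t ≤ G (n + k) := by nlinarith [Gpos (n + k)]
      have i1 := ih hk'
      have i2 := keyD k hgk
      have d1 := (h1 l E a b (n + k)).1
      have e : aa l a b (n + k) E = gam * aa l a b (n + k + 1) E - gam * (D l (n + k) E / Real.pi) := by
        rw [d1]
        have : gam * (phi * aa l a b (n + k) E + D l (n + k) E / Real.pi) =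
            (gam * phi) * aa l a b (n + k) E + gam * (D l (n + k) E / Real.pi) := by ring
        rw [this, gp]; ring
      have e1 : |aa l a b (n + k) E| ≤ gam * |aa l a b (n + k + 1) E| +
          gam * ((t ^ 4 / G (n + k) ^ 3) * (319 / 1000)) := by
        rw [e]
        refine (abs_sub _ _).trans ?_
        rw [abs_mul, abs_mul, abs_of_pos gpos, abs_div, abs_of_pos Real.pi_pos]
        have hg0 := Gpos (n + k)
        have hx : 0 < t ^ 4 / G (n + k) ^ 3 := by positivity
        have : |D l (n + k) E| / Real.pi ≤ (t ^ 4 / G (n + k) ^ 3) * (319 / 1000) := by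
          rw [div_le_iff₀ Real.pi_pos]
          nlinarith
        have := mul_le_mul_of_nonneg_left this gpos.le
        linarith
      have e2 : gam ^ k * |aa l a b (n + k) E| ≤ gam ^ k * (gam * |aa l a b (n + k + 1) E| +
          gam * ((t ^ 4 / G (n + k) ^ 3) * (319 / 1000))) :=
        mul_le_mul_of_nonneg_left e1 (by positivity)
      rw [← add_assoc, Gs (n + k)]
      have hg0 := Gpos (n + k)
      have hgn := Gpos n
      have hgk2 : gam ^ k = G (n + k) / G n := by
        rw [Gk]; field_simp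
      have e3 : gam ^ k * (gam * ((t ^ 4 / G (n + k) ^ 3) * (319 / 1000))) =
          (gam * (319 / 1000)) * (t ^ 4 / (G n * G (n + k) ^ 2)) := by
        rw [hgk2]; field_simp
      have e4 : t ^ 4 / (G n * (gam * G (n + k)) ^ 2) = phi ^ 2 * (t ^ 4 / (G n * G (n + k) ^ 2)) := by
        have : phi = gam⁻¹ := by
          rw [eq_comm, inv_eq_iff_eq_inv, eq_comm]
          exact (eq_inv_of_mul_eq_one_left gp).symm
        rw [this]
        field_simp
      rw [e4]
      have hx : 0 < t ^ 4 / (G n * G (n + k) ^ 2) := by positivity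
      set x := t ^ 4 / (G n * G (n + k) ^ 2)
      rw [mul_add, e3] at e2
      have e5 : gam ^ k * (gam * |aa l a b (n + k + 1) E|) = gam ^ (k + 1) * |aa l a b (n + k + 1) E| := by
        ring
      rw [e5] at e2
      have r3 : (2617 : ℝ) / 1000 ≤ phi ^ 2 := by
        nlinarith
      nlinarith
  -- the last index
  have hex : ∃ k, G (n + k) < 3 * t := by
    have : Filter.Tendsto (fun k : ℕ => gam ^ k * G n) Filter.atTop (nhds (0 * G n)) :=
      (tendsto_pow_atTop_nhds_zero_of_lt_one gpos.le (by linarith)).mul_const _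
    rw [zero_mul] at this
    obtain ⟨k, hk⟩ := (this.eventually (gt_mem_nhds (show (0 : ℝ) < 3 * t by positivity))).exists
    exact ⟨k, by rw [Gk]; exact hk⟩
  classical
  have h30 : 3 * t ≤ G (n + 0) := by
    rw [add_zero]
    nlinarith
  obtain ⟨K, hK⟩ : ∃ K, Nat.find hex = K + 1 := by
    have : Nat.find hex ≠ 0 := by
      intro h
      have := Nat.find_spec hex
      rw [h] at this
      linarith
    exact Nat.exists_eq_succ_of_ne_zero this
  have hK1 : 3 * t ≤ G (n + K) := by
    have := Nat.find_min hex (m := K) (by omega)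
    linarith
  have hK2 : G (n + K + 1) < 3 * t := by
    have := Nat.find_spec hex
    rw [hK] at this
    exact this
  rw [Gs] at hK2
  have F := keyA K hK1
  have hAK := hA (n + K) (by omega)
  have hgn := Gpos n
  have hg0 := Gpos (n + K)
  have f1 : gam ^ K * |aa l a b (n + K) E| ≤ gam ^ K * (6 / 10 * t) :=
    mul_le_mul_of_nonneg_left hAK (by positivity)
  have f2 : gam ^ K * (6 / 10 * t) ≤ 2913 / 1000 * (t * s) := by
    have hgk2 : gam ^ K = G (n + K) / G n := by
      rw [Gk]; field_simp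
    have hup : G (n + K) ≤ 3 * phi * t := by
      have : phi * (gam * G (n + K)) ≤ phi * (3 * t) := mul_le_mul_of_nonneg_left hK2.le ppos.le
      have e : phi * (gam * G (n + K)) = (gam * phi) * G (n + K) := by ring
      rw [e, gp] at this
      linarith
    rw [hgk2, div_mul_eq_mul_div, div_le_iff₀ hgn]
    have m1 : G (n + K) * (6 / 10 * t) ≤ 3 * phi * t * (6 / 10 * t) :=
      mul_le_mul_of_nonneg_right hup (by positivity)
    have m2 : 2913 / 1000 * (t * s) * s ≤ 2913 / 1000 * (t * s) * G n :=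
      mul_le_mul_of_nonneg_left Gn1 (by positivity)
    have m3 : 2913 / 1000 * (t * s) * s = 2913 / 1000 * (t * t) := by
      rw [← hss]; ring
    have m4 : 3 * phi * t * (6 / 10 * t) = (18 / 10 * phi) * (t * t) := by ring
    have m5 : (18 / 10 * phi) * (t * t) ≤ 2913 / 1000 * (t * t) :=
      mul_le_mul_of_nonneg_right (by linarith) (by positivity)
    linarith
  have f3 : t ^ 4 / (G n * G (n + K) ^ 2) ≤ 1 / 9 * (t * s) := by
    rw [div_le_iff₀ (by positivity)]
    have m1 : (3 * t) ^ 2 ≤ G (n + K) ^ 2 := pow_le_pow_left₀ (by positivity) hK1 2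
    have m2 : s * (3 * t) ^ 2 ≤ G n * G (n + K) ^ 2 := mul_le_mul Gn1 m1 (by positivity) hgn.le
    have m3 : 1 / 9 * (t * s) * (s * (3 * t) ^ 2) ≤ 1 / 9 * (t * s) * (G n * G (n + K) ^ 2) :=
      mul_le_mul_of_nonneg_left m2 (by positivity)
    have m4 : 1 / 9 * (t * s) * (s * (3 * t) ^ 2) = t ^ 4 := by
      have : 1 / 9 * (t * s) * (s * (3 * t) ^ 2) = t ^ 3 * s ^ 2 := by ring
      rw [this, hss]; ring
    linarith
  have hts : 0 < t * s := by positivity
  linarith

end

end Pool.Agent.Helper36.CV
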